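import Pool.Agent.H84.TO.TargetsR

/-!
# MP_b4e73a_pr, module AVG: averages over rotations
-/

set_option autoImplicit false

open MeasureTheory Matrix Polynomial
open scoped ENNReal ComplexConjugate

namespace Pool.Agent.H33.TO.AVG

open Pool.Agent.H84.TO

/-- unit complex numbers -/
noncomputable def E (φ : ℝ) : ℂ := Complex.exp (φ * Complex.I)

theorem E_cont : Continuous E := by unfold E; fun_prop

theorem E_conj (φ : ℝ) : conj (E φ) = Complex.exp (-(φ * Complex.I)) := by
  unfold E
  rw [← Complex.exp_conj, map_mul, Complex.conj_ofReal, Complex.conj_I, mul_neg]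

theorem E_mul_conj (φ : ℝ) : E φ * conj (E φ) = 1 := by
  rw [E_conj, E, ← Complex.exp_add, add_neg_cancel, Complex.exp_zero]

theorem E_eq (φ : ℝ) : E φ = (Real.cos φ : ℂ) + (Real.sin φ : ℂ) * Complex.I := by
  unfold E
  rw [Complex.exp_mul_I, Complex.ofReal_cos, Complex.ofReal_sin]

theorem orthE (m n : ℕ) : ∫ φ in (0 : ℝ)..(2 * Real.pi), E φ ^ m * conj (E φ) ^ n =
    if m = n then (2 * Real.pi : ℂ) else 0 := by
  split_ifs with h
  · subst h
    have : ∀ φ : ℝ, E φ ^ m * conj (E φ) ^ m = 1 := by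
      intro φ
      rw [← mul_pow, E_mul_conj, one_pow]
    simp only [this]
    rw [intervalIntegral.integral_const]
    simp
  · have h1 : ∀ φ : ℝ, E φ ^ m * conj (E φ) ^ n =
        Complex.exp (((((m : ℤ) - n : ℤ) : ℂ) * Complex.I) * φ) := by
      intro φ
      rw [E_conj, E, ← Complex.exp_nat_mul, ← Complex.exp_nat_mul, ← Complex.exp_add]
      congr 1
      push_cast
      ring
    simp only [h1]
    have hmn : ((m : ℤ) - n : ℤ) ≠ 0 := by omega
    have hc : ((((m : ℤ) - n : ℤ) : ℂ) * Complex.I) ≠ 0 :=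
      mul_ne_zero (by exact_mod_cast hmn) Complex.I_ne_zero
    rw [integral_exp_mul_complex hc]
    have h2 : (((((m : ℤ) - n : ℤ) : ℂ) * Complex.I) * ((2 * Real.pi : ℝ) : ℂ)) =
        (((m : ℤ) - n : ℤ) : ℂ) * (2 * Real.pi * Complex.I) := by
      push_cast
      ring
    rw [h2, Complex.exp_int_mul_two_pi_mul_I]
    simp

variable (B : Matrix (Fin 2) (Fin 2) ℝ)

/-- the holomorphic part -/
noncomputable def al : ℂ := ((B 0 0 + B 1 1) / 2 : ℝ) + ((B 1 0 - B 0 1) / 2 : ℝ) * Complex.I
/-- the antiholomorphic part -/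
noncomputable def be : ℂ := ((B 0 0 - B 1 1) / 2 : ℝ) + ((B 0 1 + B 1 0) / 2 : ℝ) * Complex.I

theorem tr_eq (φ : ℝ) : (((rot φ * B).trace : ℝ) : ℂ) = E φ * al B + conj (E φ * al B) := by
  have h1 : (rot φ * B).trace = Real.cos φ * B 0 0 - Real.sin φ * B 1 0 +
      (Real.sin φ * B 0 1 + Real.cos φ * B 1 1) := by
    rw [Matrix.trace_fin_two, Matrix.mul_apply, Matrix.mul_apply, Fin.sum_univ_two,
      Fin.sum_univ_two]
    simp [rot]
    ring
  rw [h1, E_eq, al]
  simp only [map_mul, map_add, Complex.conj_ofReal, Complex.conj_I]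
  push_cast
  ring_nf
  rw [Complex.I_sq]
  ring

theorem det_eq (φ : ℝ) : ((B.det : ℝ) : ℂ) =
    (E φ * al B) * conj (E φ * al B) - be B * conj (be B) := by
  have h1 : (E φ * al B) * conj (E φ * al B) = al B * conj (al B) := by
    rw [map_mul]
    calc _ = (E φ * conj (E φ)) * (al B * conj (al B)) := by ring
      _ = _ := by rw [E_mul_conj, one_mul]
  rw [h1, Matrix.det_fin_two, al, be]
  simp only [map_mul, map_add, Complex.conj_ofReal, Complex.conj_I]
  push_cast
  ring_nf
  rw [Complex.I_sq]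
  ring

theorem row_eq (φ : ℝ) : ((((rot φ * B) 0 0 ^ 2 + (rot φ * B) 0 1 ^ 2 : ℝ)) : ℂ) =
    (E φ * be B + conj (E φ) * conj (al B)) * (conj (E φ) * conj (be B) + E φ * al B) := by
  have h1 : (rot φ * B) 0 0 = Real.cos φ * B 0 0 - Real.sin φ * B 1 0 := by
    simp [rot, Matrix.mul_apply, Fin.sum_univ_two]
    ring
  have h2 : (rot φ * B) 0 1 = Real.cos φ * B 0 1 - Real.sin φ * B 1 1 := by
    simp [rot, Matrix.mul_apply, Fin.sum_univ_two]
    ring
  have h3 : E φ * be B + conj (E φ) * conj (al B) =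
      (((rot φ * B) 0 0 : ℝ) : ℂ) + (((rot φ * B) 0 1 : ℝ) : ℂ) * Complex.I := by
    rw [h1, h2, E_eq, al, be]
    simp only [map_mul, map_add, Complex.conj_ofReal, Complex.conj_I]
    push_cast
    ring_nf
    rw [Complex.I_sq]
    ring
  have h4 : conj (E φ) * conj (be B) + E φ * al B = conj (E φ * be B + conj (E φ) * conj (al B)) := by
    simp only [map_mul, map_add, Complex.conj_conj]
  rw [h4, h3]
  simp only [map_mul, map_add, Complex.conj_ofReal, Complex.conj_I]
  push_cast
  ring_nf
  rw [Complex.I_sq]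
  ring

/-- the common value -/
noncomputable def val (s : ℕ) : ℂ := ∑ i ∈ Finset.range (s + 1),
  2 * Real.pi * ((s.choose i : ℂ) ^ 2 * (al B * conj (al B)) ^ (s - i) * (be B * conj (be B)) ^ i)

theorem right_side (s : ℕ) : ∫ φ in (0 : ℝ)..(2 * Real.pi),
    ((((rot φ * B) 0 0 ^ 2 + (rot φ * B) 0 1 ^ 2) ^ s : ℝ) : ℂ) = val B s := by
  have h1 : ∀ φ : ℝ, ((((rot φ * B) 0 0 ^ 2 + (rot φ * B) 0 1 ^ 2) ^ s : ℝ) : ℂ) =
      ∑ i ∈ Finset.range (s + 1), ∑ j ∈ Finset.range (s + 1),
        (be B ^ i * conj (al B) ^ (s - i) * s.choose i * (conj (be B) ^ j * al B ^ (s - j) *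
          s.choose j)) * (E φ ^ (i + (s - j)) * conj (E φ) ^ ((s - i) + j)) := by
    intro φ
    rw [Complex.ofReal_pow, row_eq, mul_pow, add_pow, add_pow, Finset.sum_mul_sum]
    refine Finset.sum_congr rfl fun i _ => Finset.sum_congr rfl fun j _ => ?_
    simp only [mul_pow, pow_add]
    ring
  simp only [h1]
  have hE := E_cont
  have hc : ∀ i j : ℕ, ∀ c : ℂ, IntervalIntegrable
      (fun φ : ℝ => c * (E φ ^ i * conj (E φ) ^ j)) volume 0 (2 * Real.pi) := by
    intro i j c
    apply Continuous.intervalIntegrable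
    fun_prop
  rw [intervalIntegral.integral_finsetSum]
  swap
  · intro i _
    apply Continuous.intervalIntegrable
    fun_prop
  unfold val
  refine Finset.sum_congr rfl fun i hi => ?_
  rw [intervalIntegral.integral_finsetSum (fun j _ => hc _ _ _)]
  have hi' : i ≤ s := by simpa [Nat.lt_succ_iff] using hi
  rw [Finset.sum_eq_single i]
  · rw [intervalIntegral.integral_const_mul, orthE, if_pos (by omega)]
    simp only [mul_pow]
    ring
  · intro j hj hji
    have hj' : j ≤ s := by simpa [Nat.lt_succ_iff] using hj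
    rw [intervalIntegral.integral_const_mul, orthE, if_neg (by omega), mul_zero]
  · intro h; exact absurd hi h

theorem left_side (hMM2 : T_MM2) (s : ℕ) : ∫ φ in (0 : ℝ)..(2 * Real.pi),
    ((hh (rot φ * B).trace B.det (2 * s) : ℝ) : ℂ) = val B s := by
  have h1 : ∀ φ : ℝ, ((hh (rot φ * B).trace B.det (2 * s) : ℝ) : ℂ) =
      ∑ i ∈ Finset.range (2 * s + 1), ∑ p ∈ Finset.range (2 * s + 1),
        ∑ q ∈ Finset.range (2 * s + 1), (if p + q + 2 * i = 2 * s then
      ((p + i).choose i * (q + i).choose i : ℂ) * al B ^ p * conj (al B) ^ q *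
        (be B * conj (be B)) ^ i else 0) * (E φ ^ p * conj (E φ) ^ q) := by
    intro φ
    rw [hMM2 (E φ * al B) (be B) (conj (be B)) (conj (E φ * al B))
      (fun r => ((hh (rot φ * B).trace B.det r : ℝ) : ℂ)) (by simp [hh]) ?_ ?_ (2 * s)]
    · refine Finset.sum_congr rfl fun i _ => Finset.sum_congr rfl fun p _ =>
        Finset.sum_congr rfl fun q _ => ?_
      split_ifs
      · simp only [map_mul, mul_pow]
        ring
      · ring
    · simp only [hh]
      rw [tr_eq]
    · intro r
      simp only [hh]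
      rw [Complex.ofReal_sub, Complex.ofReal_mul, Complex.ofReal_mul, ← tr_eq, ← det_eq]
  simp only [h1]
  have hE := E_cont
  have hc : ∀ i j : ℕ, ∀ c : ℂ, IntervalIntegrable
      (fun φ : ℝ => c * (E φ ^ i * conj (E φ) ^ j)) volume 0 (2 * Real.pi) := by
    intro i j c
    apply Continuous.intervalIntegrable
    fun_prop
  rw [intervalIntegral.integral_finsetSum]
  swap
  · intro i _
    apply Continuous.intervalIntegrable
    fun_prop
  have h2 : ∀ i : ℕ, ∫ φ in (0 : ℝ)..(2 * Real.pi), ∑ p ∈ Finset.range (2 * s + 1),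
        ∑ q ∈ Finset.range (2 * s + 1), (if p + q + 2 * i = 2 * s then
      ((p + i).choose i * (q + i).choose i : ℂ) * al B ^ p * conj (al B) ^ q *
        (be B * conj (be B)) ^ i else 0) * (E φ ^ p * conj (E φ) ^ q) =
      if i ≤ s then 2 * Real.pi * ((s.choose i : ℂ) ^ 2 * (al B * conj (al B)) ^ (s - i) *
        (be B * conj (be B)) ^ i) else 0 := by
    intro i
    rw [intervalIntegral.integral_finsetSum]
    swap
    · intro p _
      apply Continuous.intervalIntegrable
      fun_prop
    have h3 : ∀ p ∈ Finset.range (2 * s + 1), ∫ φ in (0 : ℝ)..(2 * Real.pi),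
        ∑ q ∈ Finset.range (2 * s + 1), (if p + q + 2 * i = 2 * s then
      ((p + i).choose i * (q + i).choose i : ℂ) * al B ^ p * conj (al B) ^ q *
        (be B * conj (be B)) ^ i else 0) * (E φ ^ p * conj (E φ) ^ q) =
        if p + p + 2 * i = 2 * s then ((p + i).choose i : ℂ) ^ 2 * (al B * conj (al B)) ^ p *
          (be B * conj (be B)) ^ i * (2 * Real.pi) else 0 := by
      intro p hp
      rw [intervalIntegral.integral_finsetSum (fun q _ => hc _ _ _), Finset.sum_eq_single p]
      · rw [intervalIntegral.integral_const_mul, orthE, if_pos rfl]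
        split_ifs
        · simp only [mul_pow]; ring
        · ring
      · intro q _ hqp
        rw [intervalIntegral.integral_const_mul, orthE, if_neg (Ne.symm hqp), mul_zero]
      · intro h; exact absurd hp h
    rw [Finset.sum_congr rfl h3]
    split_ifs with his
    · rw [Finset.sum_eq_single (s - i)]
      · rw [if_pos (by omega), Nat.sub_add_cancel his]
        ring
      · intro p _ hps
        rw [if_neg (by omega)]
      · intro h
        exact absurd (Finset.mem_range.2 (by omega)) h
    · refine Finset.sum_eq_zero fun p _ => ?_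
      rw [if_neg (by omega)]
  simp only [h2]
  unfold val
  rw [← Finset.sum_filter]
  refine Finset.sum_congr ?_ fun _ _ => rfl
  ext i
  simp only [Finset.mem_filter, Finset.mem_range]
  omega

/-- module AVG -/
theorem avg (hMM2 : T_MM2) : T_AVG := by
  intro B s
  have h1 := left_side B hMM2 s
  rw [← right_side B s, intervalIntegral.integral_ofReal, intervalIntegral.integral_ofReal] at h1
  exact_mod_cast h1

end Pool.Agent.H33.TO.AVG
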