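import Pool.Agent.H84.TO.TargetsR

/-!
# MP_b4e73a_pr, module DB: de Bruijn formula in the checkerboard case
-/

set_option autoImplicit false

open MeasureTheory Matrix Polynomial Equiv
open scoped ENNReal

namespace Pool.Agent.H33.TO

open Pool.Agent.H84.TO

/-! ### continuity -/

theorem hh_cont (r : ℕ) : Continuous fun z : ℝ × ℝ => hh z.1 z.2 r := by
  induction r using Nat.strong_induction_on with
  | _ r ih =>
    match r with
    | 0 => simp only [hh]; exact continuous_const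
    | 1 => simp only [hh]; exact continuous_fst
    | (r + 2) =>
      simp only [hh]
      exact (continuous_fst.mul (ih (r + 1) (by omega))).sub
        (continuous_snd.mul (ih r (by omega)))

theorem tr_cont : Continuous fun B : Matrix (Fin 2) (Fin 2) ℝ => B.trace :=
  Continuous.matrix_trace continuous_id

theorem det_cont : Continuous fun B : Matrix (Fin 2) (Fin 2) ℝ => B.det :=
  Continuous.matrix_det continuous_id

theorem hhB_cont (r : ℕ) : Continuous fun B : Matrix (Fin 2) (Fin 2) ℝ => hh B.trace B.det r :=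
  (hh_cont r).comp (tr_cont.prodMk det_cont)

theorem sj_cont (j k : ℕ) : Continuous fun B : Matrix (Fin 2) (Fin 2) ℝ => sj j k B := by
  unfold sj
  split_ifs
  · exact (det_cont.pow j).mul (hhB_cont _)
  · exact ((det_cont.pow k).mul (hhB_cont _)).neg
  · exact continuous_const

theorem box_bdd {f : Matrix (Fin 2) (Fin 2) ℝ → ℝ} (hf : Continuous f) (R : ℝ) :
    ∃ C, ∀ B : Matrix (Fin 2) (Fin 2) ℝ, (∀ i j, |B i j| ≤ R) → |f B| ≤ C := by
  have hK : IsCompact (Set.pi Set.univ fun _ : Fin 2 => Set.pi Set.univ fun _ : Fin 2 =>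
      Set.Icc (-R) R) :=
    isCompact_univ_pi fun _ => isCompact_univ_pi fun _ => isCompact_Icc
  have hf' : Continuous (fun B : Fin 2 → Fin 2 → ℝ => f (Matrix.of B)) := hf
  obtain ⟨C, hC⟩ := hK.exists_bound_of_continuousOn hf'.continuousOn
  refine ⟨C, fun B hB => ?_⟩
  have := hC B (fun i _ j _ => abs_le.1 (hB i j))
  rw [Real.norm_eq_abs] at this
  exact this

theorem box_int {f : Matrix (Fin 2) (Fin 2) ℝ → ℝ} (hf : Continuous f)
    {ν : Measure (Matrix (Fin 2) (Fin 2) ℝ)} [IsFiniteMeasure ν] {R : ℝ}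
    (hR : ∀ᵐ B ∂ν, ∀ i j, |B i j| ≤ R) : Integrable f ν := by
  obtain ⟨C, hC⟩ := box_bdd hf R
  refine Integrable.of_bound hf.aestronglyMeasurable C ?_
  filter_upwards [hR] with B hB
  exact hC B hB

/-! ### combinatorics -/

theorem rs_swap (j k : ℕ) (B : Matrix (Fin 2) (Fin 2) ℝ) : sj j k B = -sj k j B := by
  unfold sj
  rcases lt_trichotomy j k with h | h | h
  · rw [if_pos h, if_neg (by omega), if_pos h, neg_neg]
  · subst h; simp
  · rw [if_neg (by omega), if_pos h, if_pos h]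

/-- the part of a checkerboard form -/
def mp {n : ℕ} (M : Matrix (Fin n) (Fin n) ℝ) : Fin n ⊕ Fin n → Fin n ⊕ Fin n → ℝ
  | Sum.inl i, Sum.inr k => M i k
  | _, _ => 0

theorem mp_split {n : ℕ} (m : Fin n ⊕ Fin n → Fin n ⊕ Fin n → ℝ)
    (ha : ∀ x y, m x y = -m y x) (hl : ∀ i k, m (Sum.inl i) (Sum.inl k) = 0)
    (hr : ∀ i k, m (Sum.inr i) (Sum.inr k) = 0) (x y : Fin n ⊕ Fin n) :
    m x y = mp (fun i k => m (Sum.inl i) (Sum.inr k)) x y -
      mp (fun i k => m (Sum.inl i) (Sum.inr k)) y x := by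
  rcases x with i | i <;> rcases y with k | k
  · simp [mp, hl]
  · simp [mp]
  · simp only [mp]
    rw [ha]
    ring
  · simp [mp, hr]

/-- replace one factor after the other -/
theorem step {n : ℕ} (m p : Fin n ⊕ Fin n → Fin n ⊕ Fin n → ℝ)
    (hmp : ∀ x y, m x y = p x y - p y x) (S : Finset (Fin n)) :
    ∑ σ : Perm (Fin n ⊕ Fin n), ((Perm.sign σ : ℤ) : ℝ) *
      ∏ i : Fin n, (if i ∈ S then m (σ (Sum.inl i)) (σ (Sum.inr i))
        else 2 * p (σ (Sum.inl i)) (σ (Sum.inr i))) =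
    ∑ σ : Perm (Fin n ⊕ Fin n), ((Perm.sign σ : ℤ) : ℝ) *
      ∏ i : Fin n, 2 * p (σ (Sum.inl i)) (σ (Sum.inr i)) := by
  induction S using Finset.induction_on with
  | empty => simp
  | insert a S ha ih =>
    rw [← ih]
    set rest : Perm (Fin n ⊕ Fin n) → ℝ := fun σ => ∏ i ∈ Finset.univ.erase a,
      (if i ∈ S then m (σ (Sum.inl i)) (σ (Sum.inr i))
        else 2 * p (σ (Sum.inl i)) (σ (Sum.inr i))) with hrest
    have e1 : ∀ σ : Perm (Fin n ⊕ Fin n), ∏ i : Fin n, (if i ∈ insert a S then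
        m (σ (Sum.inl i)) (σ (Sum.inr i)) else 2 * p (σ (Sum.inl i)) (σ (Sum.inr i))) =
        m (σ (Sum.inl a)) (σ (Sum.inr a)) * rest σ := by
      intro σ
      rw [← Finset.mul_prod_erase _ _ (Finset.mem_univ a), if_pos (Finset.mem_insert_self a S)]
      congr 1
      refine Finset.prod_congr rfl fun i hi => ?_
      have hia : i ≠ a := (Finset.mem_erase.1 hi).1
      simp only [Finset.mem_insert, hia, false_or]
    have e2 : ∀ σ : Perm (Fin n ⊕ Fin n), ∏ i : Fin n, (if i ∈ S then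
        m (σ (Sum.inl i)) (σ (Sum.inr i)) else 2 * p (σ (Sum.inl i)) (σ (Sum.inr i))) =
        2 * p (σ (Sum.inl a)) (σ (Sum.inr a)) * rest σ := by
      intro σ
      rw [← Finset.mul_prod_erase _ _ (Finset.mem_univ a), if_neg ha]
    simp only [e1, e2]
    set w : Perm (Fin n ⊕ Fin n) := swap (Sum.inl a) (Sum.inr a) with hw
    have hwrest : ∀ σ, rest (σ * w) = rest σ := by
      intro σ
      simp only [hrest]
      refine Finset.prod_congr rfl fun i hi => ?_
      have hia : i ≠ a := (Finset.mem_erase.1 hi).1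
      have h1 : w (Sum.inl i) = Sum.inl i := swap_apply_of_ne_of_ne (by simpa using hia) (by simp)
      have h2 : w (Sum.inr i) = Sum.inr i := swap_apply_of_ne_of_ne (by simp) (by simpa using hia)
      simp only [Perm.mul_apply, h1, h2]
    have hsg : Perm.sign w = -1 := Perm.sign_swap (by simp)
    have hsecond : ∑ σ : Perm (Fin n ⊕ Fin n), ((Perm.sign σ : ℤ) : ℝ) *
        (p (σ (Sum.inr a)) (σ (Sum.inl a)) * rest σ) =
        -∑ σ : Perm (Fin n ⊕ Fin n), ((Perm.sign σ : ℤ) : ℝ) *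
        (p (σ (Sum.inl a)) (σ (Sum.inr a)) * rest σ) := by
      rw [← Finset.sum_neg_distrib, ← Equiv.sum_comp (Equiv.mulRight w)]
      refine Finset.sum_congr rfl fun σ _ => ?_
      simp only [Equiv.coe_mulRight, hwrest, Perm.mul_apply, map_mul, hsg]
      have h1 : w (Sum.inr a) = Sum.inl a := swap_apply_right _ _
      have h2 : w (Sum.inl a) = Sum.inr a := swap_apply_left _ _
      rw [h1, h2]
      push_cast
      ring
    have hlhs : ∑ σ : Perm (Fin n ⊕ Fin n), ((Perm.sign σ : ℤ) : ℝ) *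
        (m (σ (Sum.inl a)) (σ (Sum.inr a)) * rest σ) =
        ∑ σ : Perm (Fin n ⊕ Fin n), ((Perm.sign σ : ℤ) : ℝ) *
          (p (σ (Sum.inl a)) (σ (Sum.inr a)) * rest σ) -
        ∑ σ : Perm (Fin n ⊕ Fin n), ((Perm.sign σ : ℤ) : ℝ) *
          (p (σ (Sum.inr a)) (σ (Sum.inl a)) * rest σ) := by
      rw [← Finset.sum_sub_distrib]
      refine Finset.sum_congr rfl fun σ _ => ?_
      rw [hmp]
      ring
    rw [hlhs, hsecond, sub_neg_eq_add, ← Finset.sum_add_distrib]
    refine Finset.sum_congr rfl fun σ _ => ?_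
    ring

theorem block_sum {n : ℕ} (M : Matrix (Fin n) (Fin n) ℝ) :
    ∑ σ : Perm (Fin n ⊕ Fin n), ((Perm.sign σ : ℤ) : ℝ) *
      ∏ i : Fin n, mp M (σ (Sum.inl i)) (σ (Sum.inr i)) = n.factorial * M.det := by
  have h1 : ∑ q : Perm (Fin n) × Perm (Fin n), ((Perm.sign q.1 : ℤ) : ℝ) * ((Perm.sign q.2 : ℤ) : ℝ) *
      ∏ i : Fin n, M (q.1 i) (q.2 i) = ∑ σ : Perm (Fin n ⊕ Fin n), ((Perm.sign σ : ℤ) : ℝ) *
      ∏ i : Fin n, mp M (σ (Sum.inl i)) (σ (Sum.inr i)) := by
    refine Fintype.sum_of_injective (fun q => Perm.sumCongrHom (Fin n) (Fin n) q)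
      (Perm.sumCongrHom_injective) _ _ ?_ ?_
    · intro σ hσ
      by_contra hne
      apply hσ
      have h2 := right_ne_zero_of_mul hne
      rw [Finset.prod_ne_zero_iff] at h2
      have h3 : σ ∈ (Perm.sumCongrHom (Fin n) (Fin n)).range := by
        refine Perm.mem_sumCongrHom_range_of_perm_mapsTo_inl ?_
        rintro _ ⟨i, rfl⟩
        have h4 := h2 i (Finset.mem_univ i)
        rcases h5 : σ (Sum.inl i) with a | a
        · exact ⟨a, rfl⟩
        · exfalso
          apply h4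
          rw [h5]
          simp [mp]
      exact h3
    · rintro ⟨p, q⟩
      simp [Perm.sumCongrHom, mp, Perm.sign_sumCongr]
  rw [← h1, Fintype.sum_prod_type_right]
  have h2 : ∀ q : Perm (Fin n), ∑ p : Perm (Fin n), ((Perm.sign p : ℤ) : ℝ) *
      ((Perm.sign q : ℤ) : ℝ) * ∏ i : Fin n, M (p i) (q i) = M.det := by
    intro q
    have h3 := det_permute' q M
    rw [det_apply'] at h3
    have h4 : ((Perm.sign q : ℤ) : ℝ) * ((Perm.sign q : ℤ) : ℝ) = 1 := by
      rw [← Int.cast_mul, ← Units.val_mul, Int.units_mul_self]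
      simp
    calc ∑ p : Perm (Fin n), ((Perm.sign p : ℤ) : ℝ) *
        ((Perm.sign q : ℤ) : ℝ) * ∏ i : Fin n, M (p i) (q i)
        = ((Perm.sign q : ℤ) : ℝ) * ∑ p : Perm (Fin n), ((Perm.sign p : ℤ) : ℝ) *
          ∏ i : Fin n, M.submatrix id q (p i) i := by
          rw [Finset.mul_sum]
          refine Finset.sum_congr rfl fun p _ => ?_
          simp only [submatrix_apply, id]
          ring
      _ = _ := by rw [h3, ← mul_assoc, h4, one_mul]
  simp only [h2, Finset.sum_const, Finset.card_univ, Fintype.card_perm, Fintype.card_fin,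
    nsmul_eq_mul]

/-- module DB -/
theorem db (hVDM : T_VDM) : T_DB := by
  intro n ν _ R hR hpar
  set m : Fin n ⊕ Fin n → Fin n ⊕ Fin n → ℝ := fun x y => ∫ B, sj (ee x) (ee y) B ∂ν with hm
  have hint : ∀ j k, Integrable (fun B => sj j k B) ν := fun j k => box_int (sj_cont j k) hR
  have hmain : 2 ^ n * ∫ B : Fin n → Matrix (Fin 2) (Fin 2) ℝ,
      (∏ i : Fin n, ∏ j ∈ Finset.Ioi i, Rs (B i).charpoly (B j).charpoly)
        ∂(Measure.pi fun _ => ν) =
      ∑ σ : Perm (Fin n ⊕ Fin n), ((Perm.sign σ : ℤ) : ℝ) *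
        ∏ i : Fin n, m (σ (Sum.inl i)) (σ (Sum.inr i)) := by
    rw [← integral_const_mul]
    simp only [hVDM n]
    rw [integral_finsetSum _ (fun σ _ => (Integrable.fintype_prod_dep (fun i =>
      hint (ee (σ (Sum.inl i))) (ee (σ (Sum.inr i))))).const_mul _)]
    refine Finset.sum_congr rfl fun σ _ => ?_
    rw [integral_const_mul, integral_fintype_prod_eq_prod (fun i =>
      fun B => sj (ee (σ (Sum.inl i))) (ee (σ (Sum.inr i))) B)]
  have ha : ∀ x y, m x y = -m y x := by
    intro x y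
    simp only [hm]
    rw [← integral_neg]
    congr 1
    funext B
    exact rs_swap _ _ B
  have hl : ∀ i k, m (Sum.inl i) (Sum.inl k) = 0 := by
    intro i k
    refine hpar _ _ ?_
    simp [ee]
  have hr : ∀ i k, m (Sum.inr i) (Sum.inr k) = 0 := by
    intro i k
    refine hpar _ _ ?_
    simp only [ee, Sum.elim_inr]
    omega
  have h1 := step m (mp fun i k => m (Sum.inl i) (Sum.inr k)) (mp_split m ha hl hr) Finset.univ
  simp only [Finset.mem_univ, if_true] at h1
  rw [h1] at hmain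
  have h2 : ∑ σ : Perm (Fin n ⊕ Fin n), ((Perm.sign σ : ℤ) : ℝ) *
      ∏ i : Fin n, 2 * mp (fun i k => m (Sum.inl i) (Sum.inr k)) (σ (Sum.inl i)) (σ (Sum.inr i)) =
      2 ^ n * ∑ σ : Perm (Fin n ⊕ Fin n), ((Perm.sign σ : ℤ) : ℝ) *
      ∏ i : Fin n, mp (fun i k => m (Sum.inl i) (Sum.inr k)) (σ (Sum.inl i)) (σ (Sum.inr i)) := by
    rw [Finset.mul_sum]
    refine Finset.sum_congr rfl fun σ _ => ?_
    rw [Finset.prod_mul_distrib]
    simp only [Finset.prod_const, Finset.card_univ, Fintype.card_fin]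
    ring
  rw [h2, block_sum] at hmain
  have h3 := mul_left_cancel₀ (by positivity : (2 : ℝ) ^ n ≠ 0) hmain
  rw [h3]
  rfl

end Pool.Agent.H33.TO
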