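import Pool.Agent.H84.TO.TargetsR

/-!
# MP_b4e73a_pr, module ITR: the iterated recursion
-/

set_option autoImplicit false

open MeasureTheory Matrix Polynomial
open scoped ENNReal

namespace Pool.Agent.H33.TO.ITR

open Pool.Agent.H84.TO

/-- two by two matrices -/
abbrev M2 := Matrix (Fin 2) (Fin 2) ℝ

theorem blk_meas {ι κ : Type} [Fintype ι] [DecidableEq ι] [Fintype κ] [DecidableEq κ] :
    Measurable (blk : Matrix.orthogonalGroup (ι ⊕ κ) ℝ → Matrix ι ι ℝ) := by
  refine measurable_pi_iff.2 fun i => measurable_pi_iff.2 fun j => ?_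
  exact ((continuous_subtype_val).matrix_elem (Sum.inl i) (Sum.inl j)).measurable

/-- block diagonal matrix indexed by `Fin (2 n)` -/
def bd (n : ℕ) (B : Fin n → M2) : Matrix (Fin (2 * n)) (Fin (2 * n)) ℝ :=
  Matrix.reindex finProdFinEquiv finProdFinEquiv (Matrix.blockDiagonal B)

theorem bd_charpoly (n : ℕ) (B : Fin n → M2) : (bd n B).charpoly = ∏ i, (B i).charpoly := by
  unfold bd
  rw [Matrix.charpoly_reindex, Matrix.charpoly]
  have : charmatrix (blockDiagonal B) = blockDiagonal (fun i => charmatrix (B i)) := by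
    ext1 ⟨i, k⟩ ⟨j, k'⟩
    by_cases hk : k = k'
    · subst hk
      by_cases hij : i = j
      · subst hij
        simp [charmatrix_apply_eq, blockDiagonal_apply_eq]
      · have h1 : ((i, k) : Fin 2 × Fin n) ≠ (j, k) := by
          intro h; exact hij (Prod.mk.inj h).1
        rw [charmatrix_apply_ne _ _ _ h1, blockDiagonal_apply_eq, blockDiagonal_apply_eq,
          charmatrix_apply_ne _ _ _ hij]
    · have h1 : ((i, k) : Fin 2 × Fin n) ≠ (j, k') := by
        intro h; exact hk (Prod.mk.inj h).2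
      rw [charmatrix_apply_ne _ _ _ h1, blockDiagonal_apply_ne _ _ _ hk,
        blockDiagonal_apply_ne _ _ _ hk]
      simp
  rw [this, det_blockDiagonal]
  rfl

theorem bd_apply (n : ℕ) (B : Fin n → M2) (i j : Fin (2 * n)) :
    bd n B i j = if (finProdFinEquiv.symm i).2 = (finProdFinEquiv.symm j).2 then
      B (finProdFinEquiv.symm i).2 (finProdFinEquiv.symm i).1 (finProdFinEquiv.symm j).1 else 0 := by
  unfold bd
  rw [Matrix.reindex_apply, Matrix.submatrix_apply, blockDiagonal_apply]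

theorem bd_meas (n : ℕ) : Measurable (bd n) := by
  refine measurable_pi_iff.2 fun i => measurable_pi_iff.2 fun j => ?_
  simp only [bd_apply]
  split_ifs
  · exact (measurable_pi_apply _).comp ((measurable_pi_apply _).comp (measurable_pi_apply _))
  · exact measurable_const

theorem bd_bound (n : ℕ) (B : Fin n → M2) (h : ∀ k i j, |B k i j| ≤ 1) (i j : Fin (2 * n)) :
    |bd n B i j| ≤ 1 := by
  rw [bd_apply]
  split_ifs
  · exact h _ _ _
  · simp

theorem test_one : Test (fun _ => (1 : ℝ)) where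
  meas N := measurable_const
  bdd N R := ⟨1, fun A _ => by simp⟩

theorem Rs_meas (hTST : T_TST) : Measurable fun p : M2 × M2 => Rs p.1.charpoly p.2.charpoly := by
  have := (hTST (fun _ => (1 : ℝ)) 0 test_one).2.1 2
  simpa using this

theorem Rs_bdd (hTST : T_TST) : ∃ C : ℝ, 0 ≤ C ∧ ∀ A B : M2, (∀ i j, |A i j| ≤ 1) →
    (∀ i j, |B i j| ≤ 1) → |Rs A.charpoly B.charpoly| ≤ C := by
  obtain ⟨C, hC⟩ := (hTST (fun _ => (1 : ℝ)) 0 test_one).2.2 2 1
  refine ⟨|C|, abs_nonneg _, fun A B hA hB => ?_⟩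
  have := hC A B hA hB
  rw [mul_one] at this
  exact this.trans (le_abs_self C)

/-- the integrand -/
noncomputable def FF (φ : ℝ[X] → ℝ) (n : ℕ) (B : Fin n → M2) : ℝ :=
  φ (∏ i, (B i).charpoly) * ∏ i : Fin n, ∏ j ∈ Finset.Ioi i, Rs (B i).charpoly (B j).charpoly

theorem pm2 (F : M2 × M2 → ℝ) (hF : Measurable F) (n : ℕ) (i j : Fin n) :
    Measurable fun B : Fin n → M2 => F (B i, B j) := by
  have hi : Measurable fun B : Fin n → M2 => B i := measurable_pi_apply i
  have hj : Measurable fun B : Fin n → M2 => B j := measurable_pi_apply j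
  exact hF.comp (hi.prodMk hj)

theorem pair_meas (hTST : T_TST) (n : ℕ) (i j : Fin n) :
    Measurable fun B : Fin n → M2 => Rs (B i).charpoly (B j).charpoly :=
  pm2 (fun p => Rs p.1.charpoly p.2.charpoly) (Rs_meas hTST) n i j

theorem FF_meas (hTST : T_TST) {φ : ℝ[X] → ℝ} (hφ : Test φ) (n : ℕ) : Measurable (FF φ n) := by
  have h1 : Measurable fun B : Fin n → M2 => φ (∏ i, (B i).charpoly) := by
    have h := (hφ.meas (2 * n)).comp (bd_meas n)
    have e : (fun B : Fin n → M2 => φ (∏ i, (B i).charpoly)) =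
        (fun A : Matrix (Fin (2 * n)) (Fin (2 * n)) ℝ => φ A.charpoly) ∘ bd n := by
      funext B
      simp only [Function.comp, bd_charpoly]
    rw [e]
    exact h
  have h2 : Measurable fun B : Fin n → M2 =>
      ∏ i : Fin n, ∏ j ∈ Finset.Ioi i, Rs (B i).charpoly (B j).charpoly := by
    have h3 : ∀ i : Fin n, Measurable fun B : Fin n → M2 =>
        ∏ j ∈ Finset.Ioi i, Rs (B i).charpoly (B j).charpoly := by
      intro i
      have h4 : ∀ j ∈ Finset.Ioi i, Measurable fun B : Fin n → M2 =>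
          Rs (B i).charpoly (B j).charpoly := fun j _ => pair_meas hTST n i j
      exact Finset.measurable_fun_prod (Finset.Ioi i) h4
    exact Finset.measurable_fun_prod Finset.univ fun i _ => h3 i
  exact h1.mul h2

theorem FF_bdd (hTST : T_TST) {φ : ℝ[X] → ℝ} (hφ : Test φ) (n : ℕ) :
    ∃ C : ℝ, ∀ B : Fin n → M2, (∀ k i j, |B k i j| ≤ 1) → |FF φ n B| ≤ C := by
  obtain ⟨C1, hC1⟩ := hφ.bdd (2 * n) 1
  obtain ⟨C2, hC20, hC2⟩ := Rs_bdd hTST
  refine ⟨|C1| * ∏ i : Fin n, ∏ j ∈ Finset.Ioi i, C2, fun B hB => ?_⟩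
  unfold FF
  rw [abs_mul, Finset.abs_prod]
  refine mul_le_mul ?_ ?_ (Finset.prod_nonneg fun i _ => abs_nonneg _) (abs_nonneg _)
  · rw [← bd_charpoly]
    exact (hC1 _ (bd_bound n B hB)).trans (le_abs_self _)
  · refine Finset.prod_le_prod (fun i _ => abs_nonneg _) fun i _ => ?_
    rw [Finset.abs_prod]
    exact Finset.prod_le_prod (fun j _ => abs_nonneg _) fun j _ => hC2 _ _ (hB i) (hB j)

theorem FF_cons (φ : ℝ[X] → ℝ) (n : ℕ) (B : M2) (Bs : Fin n → M2) :
    FF φ (n + 1) (Fin.cons B Bs : Fin (n + 1) → M2) =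
      FF (fun χ => Rs B.charpoly χ * φ (B.charpoly * χ)) n Bs := by
  have h1 : Rs B.charpoly (∏ i, (Bs i).charpoly) = ∏ i, Rs B.charpoly (Bs i).charpoly := by
    unfold Rs
    refine resultant_prod_right _ _ _ _ le_rfl ?_
    refine Finset.prod_ne_zero_iff.2 fun i _ => ?_
    rw [(Matrix.charpoly_monic _).leadingCoeff]
    exact one_ne_zero
  unfold FF
  beta_reduce
  rw [h1, Fin.prod_univ_succ, Fin.prod_univ_succ, Fin.prod_Ioi_zero]
  simp only [Fin.cons_zero, Fin.cons_succ, Fin.prod_Ioi_succ]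
  ring

theorem entry_le {ι : Type} [Fintype ι] [DecidableEq ι] (O : Matrix.orthogonalGroup ι ℝ)
    (i j : ι) : |(O : Matrix ι ι ℝ) i j| ≤ 1 := by
  have := entry_norm_bound_of_unitary (𝕜 := ℝ) O.2 i j
  simpa using this

theorem itr (hREC : T_REC) (hTRF : T_TRF) (hTST : T_TST) (hHEX : T_HEX) : T_ITR := by
  intro ℓ hℓ μ2 _ _ n
  have hne : Nonempty (Fin ℓ) := ⟨⟨0, hℓ⟩⟩
  have hom : IsProbabilityMeasure (om2 μ2) := Measure.isProbabilityMeasure_map blk_meas.aemeasurable
  have hae : ∀ᵐ B ∂(om2 μ2), ∀ i j, |B i j| ≤ 1 := by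
    have hms : MeasurableSet {B : M2 | ∀ i j, |B i j| ≤ 1} := by
      have : {B : M2 | ∀ i j, |B i j| ≤ 1} = ⋂ i, ⋂ j, {B : M2 | |B i j| ≤ 1} := by
        ext B; simp
      rw [this]
      refine MeasurableSet.iInter fun i => MeasurableSet.iInter fun j => ?_
      exact measurableSet_le (((measurable_pi_apply j).comp (measurable_pi_apply i)).abs)
        measurable_const
    unfold om2
    rw [ae_map_iff blk_meas.aemeasurable hms]
    exact Filter.Eventually.of_forall fun O i j => entry_le O _ _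
  induction n with
  | zero =>
    intro μ _ _
    refine ⟨1, one_pos, fun φ _ => ?_⟩
    simp
  | succ n ih =>
    intro μ _ _
    obtain ⟨μN, hN1, hN2⟩ := hHEX ((Fin 2 ⊕ Fin (2 * n)) ⊕ Fin ℓ)
    obtain ⟨μb, hb1, hb2⟩ := hHEX (Fin (2 * n) ⊕ Fin ℓ)
    obtain ⟨K, hK, hKf⟩ := ih μb
    obtain ⟨c, hc, hcf⟩ := hREC n (Fin ℓ) μN μ2 μb
    refine ⟨c * K, mul_pos hc hK, fun φ hφ => ?_⟩
    have hcard : Fintype.card (Fin 2 ⊕ Fin (2 * n)) = 2 * (n + 1) := by
      simp; ring
    rw [← (hTRF (2 * (n + 1)) (Fin 2 ⊕ Fin (2 * n)) (Fin ℓ) hcard μN μ φ hφ).2, hcf φ hφ]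
    have hin : ∀ O2 : Matrix.orthogonalGroup (Fin 2 ⊕ Fin ℓ) ℝ,
        ∫ Ob, Rs (blk O2).charpoly (blk Ob).charpoly *
          φ ((blk O2).charpoly * (blk Ob).charpoly) ∂μb =
        K * ∫ B : Fin n → M2, FF φ (n + 1) (Fin.cons (blk O2) B : Fin (n + 1) → M2)
          ∂(Measure.pi fun _ => om2 μ2) := by
      intro O2
      have := hKf _ (hTST φ (blk O2) hφ).1
      rw [this]
      simp only [FF_cons]
      rfl
    simp only [hin]
    rw [integral_const_mul, mul_assoc]
    congr 1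
    congr 1
    -- transport
    have hmp := (measurePreserving_piFinSuccAbove (fun _ : Fin (n + 1) => om2 μ2) 0).symm
    have hFm := FF_meas hTST hφ (n + 1)
    have e0 : ∫ B : Fin (n + 1) → M2, φ (∏ i, (B i).charpoly) *
        ∏ i : Fin (n + 1), ∏ j ∈ Finset.Ioi i, Rs (B i).charpoly (B j).charpoly
        ∂(Measure.pi fun _ => om2 μ2) =
      ∫ B : Fin (n + 1) → M2, FF φ (n + 1) B ∂(Measure.pi fun _ => om2 μ2) := rfl
    rw [e0, ← hmp.integral_comp' (FF φ (n + 1))]
    have hsy : ∀ p : M2 × (Fin n → M2),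
        (MeasurableEquiv.piFinSuccAbove (fun _ : Fin (n + 1) => M2) 0).symm p =
          (Fin.cons p.1 p.2 : Fin (n + 1) → M2) := by
      intro p
      simp [MeasurableEquiv.piFinSuccAbove, Fin.insertNthEquiv]
    have hconsm : Measurable fun p : M2 × (Fin n → M2) => (Fin.cons p.1 p.2 : Fin (n + 1) → M2) := by
      have h := (MeasurableEquiv.piFinSuccAbove (fun _ : Fin (n + 1) => M2) 0).symm.measurable
      have e : (fun p : M2 × (Fin n → M2) => (Fin.cons p.1 p.2 : Fin (n + 1) → M2)) =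
          ⇑(MeasurableEquiv.piFinSuccAbove (fun _ : Fin (n + 1) => M2) 0).symm := by
        funext p
        exact (hsy p).symm
      rw [e]
      exact h
    have hGm : Measurable fun p : M2 × (Fin n → M2) =>
        FF φ (n + 1) (Fin.cons p.1 p.2 : Fin (n + 1) → M2) := hFm.comp hconsm
    have hint : Integrable (fun p : M2 × (Fin n → M2) =>
        FF φ (n + 1) (Fin.cons p.1 p.2 : Fin (n + 1) → M2))
        ((om2 μ2).prod (Measure.pi fun _ : Fin n => om2 μ2)) := by
      obtain ⟨C, hC⟩ := FF_bdd hTST hφ (n + 1)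
      refine Integrable.of_bound hGm.aestronglyMeasurable C ?_
      have h1 : ∀ᵐ p ∂((om2 μ2).prod (Measure.pi fun _ : Fin n => om2 μ2)),
          ∀ i j, |p.1 i j| ≤ 1 := Measure.quasiMeasurePreserving_fst.ae hae
      have h2' : ∀ᵐ B ∂(Measure.pi fun _ : Fin n => om2 μ2), ∀ k i j, |B k i j| ≤ 1 := by
        rw [ae_all_iff]
        intro k
        exact (Measure.tendsto_eval_ae_ae (μ := fun _ : Fin n => om2 μ2) (i := k)).eventually hae
      have h2 : ∀ᵐ p ∂((om2 μ2).prod (Measure.pi fun _ : Fin n => om2 μ2)),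
          ∀ k i j, |p.2 k i j| ≤ 1 := Measure.quasiMeasurePreserving_snd.ae h2'
      filter_upwards [h1, h2] with p hp1 hp2
      rw [Real.norm_eq_abs]
      refine hC _ fun k => ?_
      refine Fin.cases ?_ (fun k => ?_) k
      · simpa using hp1
      · simpa using hp2 k
    have e1 : ∫ p, FF φ (n + 1)
        ((MeasurableEquiv.piFinSuccAbove (fun _ : Fin (n + 1) => M2) 0).symm p)
        ∂((om2 μ2).prod (Measure.pi fun _ : Fin n => om2 μ2)) =
        ∫ p : M2 × (Fin n → M2), FF φ (n + 1) (Fin.cons p.1 p.2 : Fin (n + 1) → M2)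
        ∂((om2 μ2).prod (Measure.pi fun _ : Fin n => om2 μ2)) := by
      refine integral_congr_ae (Filter.Eventually.of_forall fun p => ?_)
      simp only [hsy]
    refine Eq.trans ?_ e1.symm
    rw [integral_prod _ hint]
    have hsm : StronglyMeasurable fun B : M2 => ∫ Bs : Fin n → M2,
        FF φ (n + 1) (Fin.cons B Bs : Fin (n + 1) → M2) ∂(Measure.pi fun _ => om2 μ2) :=
      hGm.stronglyMeasurable.integral_prod_right'
    exact (integral_map (φ := blk) (μ := μ2) blk_meas.aemeasurable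
      hsm.aestronglyMeasurable).symm

end Pool.Agent.H33.TO.ITR
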