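import Pool.Agent.H33.TO.DB

/-!
# MP_b4e73a_pr, module TOT: total moments
-/

set_option autoImplicit false

open MeasureTheory Matrix Polynomial
open scoped ENNReal

namespace Pool.Agent.H33.TO.TOT

open Pool.Agent.H84.TO Pool.Agent.H33.TO

theorem rot_mul (φ : ℝ) (B : Matrix (Fin 2) (Fin 2) ℝ) :
    rot φ * B = !![Real.cos φ * B 0 0 - Real.sin φ * B 1 0, Real.cos φ * B 0 1 - Real.sin φ * B 1 1;
      Real.sin φ * B 0 0 + Real.cos φ * B 1 0, Real.sin φ * B 0 1 + Real.cos φ * B 1 1] := by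
  ext i j
  rw [Matrix.mul_apply, Fin.sum_univ_two]
  fin_cases i <;> fin_cases j <;> simp [rot] <;> ring

theorem rot_orth (φ : ℝ) : (rot φ)ᵀ * rot φ = 1 := by
  have h := Real.sin_sq_add_cos_sq φ
  ext i j
  rw [Matrix.mul_apply, Fin.sum_univ_two]
  fin_cases i <;> fin_cases j <;> simp [rot] <;> nlinarith

theorem rot_det (φ : ℝ) (B : Matrix (Fin 2) (Fin 2) ℝ) : (rot φ * B).det = B.det := by
  rw [Matrix.det_mul]
  have : (rot φ).det = 1 := by
    rw [Matrix.det_fin_two]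
    simp [rot]
    have h := Real.sin_sq_add_cos_sq φ
    nlinarith
  rw [this, one_mul]

theorem rot_bd (φ : ℝ) {B : Matrix (Fin 2) (Fin 2) ℝ} (hB : ∀ i j, |B i j| ≤ 1) :
    ∀ i j, |(rot φ * B) i j| ≤ 2 := by
  have hc := Real.abs_cos_le_one φ
  have hs := Real.abs_sin_le_one φ
  have h1 : ∀ c s x y : ℝ, |c| ≤ 1 → |s| ≤ 1 → |x| ≤ 1 → |y| ≤ 1 → |c * x - s * y| ≤ 2 := by
    intro c s x y hc hs hx hy
    refine (abs_sub _ _).trans ?_
    rw [abs_mul, abs_mul]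
    have := mul_le_mul hc hx (abs_nonneg _) zero_le_one
    have := mul_le_mul hs hy (abs_nonneg _) zero_le_one
    linarith
  have h2 : ∀ c s x y : ℝ, |c| ≤ 1 → |s| ≤ 1 → |x| ≤ 1 → |y| ≤ 1 → |c * x + s * y| ≤ 2 := by
    intro c s x y hc hs hx hy
    refine (abs_add_le _ _).trans ?_
    rw [abs_mul, abs_mul]
    have := mul_le_mul hc hx (abs_nonneg _) zero_le_one
    have := mul_le_mul hs hy (abs_nonneg _) zero_le_one
    linarith
  rw [rot_mul]
  intro i j
  fin_cases i <;> fin_cases j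
  · exact h1 _ _ _ _ hc hs (hB 0 0) (hB 1 0)
  · exact h1 _ _ _ _ hc hs (hB 0 1) (hB 1 1)
  · exact h2 _ _ _ _ hs hc (hB 0 0) (hB 1 0)
  · exact h2 _ _ _ _ hs hc (hB 0 1) (hB 1 1)

theorem rot_cont : Continuous fun p : ℝ × Matrix (Fin 2) (Fin 2) ℝ => rot p.1 * p.2 := by
  have h1 : Continuous fun p : ℝ × Matrix (Fin 2) (Fin 2) ℝ => rot p.1 := by
    refine continuous_matrix fun i j => ?_
    unfold rot
    fin_cases i <;> fin_cases j <;> simp <;> fun_prop
  exact h1.matrix_mul continuous_snd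

/-- averaging an invariant law -/
theorem invar {ω : Measure (Matrix (Fin 2) (Fin 2) ℝ)} [IsProbabilityMeasure ω]
    (hbd : ∀ᵐ B ∂ω, ∀ i j, |B i j| ≤ 1)
    (hinv : ∀ g : Matrix (Fin 2) (Fin 2) ℝ, gᵀ * g = 1 → ω.map (fun B => g * B) = ω)
    {f : Matrix (Fin 2) (Fin 2) ℝ → ℝ} (hf : Continuous f) :
    2 * Real.pi * ∫ B, f B ∂ω = ∫ B, (∫ φ in (0 : ℝ)..(2 * Real.pi), f (rot φ * B)) ∂ω := by
  have h1 : ∀ φ : ℝ, ∫ B, f (rot φ * B) ∂ω = ∫ B, f B ∂ω := by
    intro φ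
    conv_rhs => rw [← hinv (rot φ) (rot_orth φ)]
    rw [integral_map]
    · exact (rot_cont.comp (by fun_prop : Continuous fun B : Matrix (Fin 2) (Fin 2) ℝ =>
        ((φ, B) : ℝ × Matrix (Fin 2) (Fin 2) ℝ))).measurable.aemeasurable
    · exact hf.aestronglyMeasurable
  obtain ⟨C, hC⟩ := box_bdd hf 2
  have hfc : Continuous (Function.uncurry fun (φ : ℝ) (B : Matrix (Fin 2) (Fin 2) ℝ) =>
      f (rot φ * B)) := hf.comp rot_cont
  have hint : Integrable (Function.uncurry fun (φ : ℝ) (B : Matrix (Fin 2) (Fin 2) ℝ) =>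
      f (rot φ * B)) ((volume.restrict (Set.uIoc (0 : ℝ) (2 * Real.pi))).prod ω) := by
    rw [Set.uIoc_of_le (by positivity)]
    refine Integrable.of_bound hfc.aestronglyMeasurable C ?_
    have h2 : ∀ᵐ p : ℝ × Matrix (Fin 2) (Fin 2) ℝ
        ∂((volume.restrict (Set.Ioc (0 : ℝ) (2 * Real.pi))).prod ω), ∀ i j, |p.2 i j| ≤ 1 :=
      Measure.quasiMeasurePreserving_snd.ae hbd
    filter_upwards [h2] with p hp
    exact hC _ (rot_bd p.1 hp)
  rw [← intervalIntegral_integral_swap hint]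
  simp only [h1]
  rw [intervalIntegral.integral_const, sub_zero, smul_eq_mul]

/-- the first row -/
def rw2 (B : Matrix (Fin 2) (Fin 2) ℝ) : ℝ := B 0 0 ^ 2 + B 0 1 ^ 2

theorem rw2_cont : Continuous rw2 := by
  unfold rw2
  have h1 : Continuous fun B : Matrix (Fin 2) (Fin 2) ℝ => B 0 0 := continuous_id.matrix_elem 0 0
  have h2 : Continuous fun B : Matrix (Fin 2) (Fin 2) ℝ => B 0 1 := continuous_id.matrix_elem 0 1
  exact (h1.pow 2).add (h2.pow 2)

theorem avg_eq (hAVG : T_AVG) {ω : Measure (Matrix (Fin 2) (Fin 2) ℝ)} [IsProbabilityMeasure ω]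
    (hbd : ∀ᵐ B ∂ω, ∀ i j, |B i j| ≤ 1)
    (hinv : ∀ g : Matrix (Fin 2) (Fin 2) ℝ, gᵀ * g = 1 → ω.map (fun B => g * B) = ω) (d s : ℕ) :
    ∫ B, B.det ^ d * hh B.trace B.det (2 * s) ∂ω = ∫ B, B.det ^ d * rw2 B ^ s ∂ω := by
  have e1 := invar hbd hinv (f := fun B => B.det ^ d * hh B.trace B.det (2 * s))
    ((det_cont.pow d).mul (hhB_cont _))
  have e2 := invar hbd hinv (f := fun B => B.det ^ d * rw2 B ^ s)
    ((det_cont.pow d).mul (rw2_cont.pow s))
  have e3 : ∀ B : Matrix (Fin 2) (Fin 2) ℝ, ∫ φ in (0 : ℝ)..(2 * Real.pi),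
      (rot φ * B).det ^ d * hh (rot φ * B).trace (rot φ * B).det (2 * s) =
      ∫ φ in (0 : ℝ)..(2 * Real.pi), (rot φ * B).det ^ d * rw2 (rot φ * B) ^ s := by
    intro B
    simp only [rot_det]
    rw [intervalIntegral.integral_const_mul, intervalIntegral.integral_const_mul, hAVG B s]
    rfl
  simp only [e3] at e1
  rw [← e2] at e1
  exact mul_left_cancel₀ (by positivity) e1

theorem bt_pos {x y : ℝ} (hx : 0 < x) (hy : 0 < y) : 0 < bt x y := by
  unfold bt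
  have h1 := Real.Gamma_pos_of_pos hx
  have h2 := Real.Gamma_pos_of_pos hy
  have h3 := Real.Gamma_pos_of_pos (add_pos hx hy)
  positivity

theorem bt_one {x : ℝ} (hx : 0 < x) : bt 1 x = 1 / x := by
  unfold bt
  rw [Real.Gamma_one, add_comm, Real.Gamma_add_one hx.ne']
  have := Real.Gamma_pos_of_pos hx
  field_simp

/-- the beta integral on `(0,1)` -/
theorem beta01 (k : ℕ) {q : ℝ} (hq : 0 < q) :
    ∫⁻ r in Set.Ioo (0 : ℝ) 1, ENNReal.ofReal (r ^ k * (1 - r) ^ (q - 1)) =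
      ENNReal.ofReal (bt (k + 1) q) := by
  have hk : (0 : ℝ) < k + 1 := by positivity
  have h1 := ProbabilityTheory.lintegral_betaPDF_eq_one hk hq
  rw [ProbabilityTheory.lintegral_betaPDF] at h1
  have hb := bt_pos hk hq
  have h2 : ∫⁻ r in Set.Ioo (0 : ℝ) 1, ENNReal.ofReal (1 / ProbabilityTheory.beta (k + 1) q *
      r ^ ((k : ℝ) + 1 - 1) * (1 - r) ^ (q - 1)) =
      ENNReal.ofReal (1 / bt (k + 1) q) *
        ∫⁻ r in Set.Ioo (0 : ℝ) 1, ENNReal.ofReal (r ^ k * (1 - r) ^ (q - 1)) := by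
    rw [← lintegral_const_mul' _ _ ENNReal.ofReal_ne_top]
    refine setLIntegral_congr_fun measurableSet_Ioo fun r hr => ?_
    rw [← ENNReal.ofReal_mul (by positivity), add_sub_cancel_right, Real.rpow_natCast, mul_assoc]
    rfl
  rw [h2] at h1
  have h3 : ENNReal.ofReal (bt (k + 1) q) * ENNReal.ofReal (1 / bt (k + 1) q) = 1 := by
    rw [← ENNReal.ofReal_mul hb.le, mul_one_div_cancel hb.ne', ENNReal.ofReal_one]
  calc _ = (ENNReal.ofReal (bt (k + 1) q) * ENNReal.ofReal (1 / bt (k + 1) q)) *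
        ∫⁻ r in Set.Ioo (0 : ℝ) 1, ENNReal.ofReal (r ^ k * (1 - r) ^ (q - 1)) := by
        rw [h3, one_mul]
    _ = ENNReal.ofReal (bt (k + 1) q) := by rw [mul_assoc, h1, mul_one]

/-- module TOT -/
theorem tot (hW2 : T_W2) (hW2B : T_W2B) (hSYM : T_SYM) (hAVG : T_AVG) (hBET : T_BET) : T_TOT := by
  intro ℓ hℓ μ _ _ i k
  obtain ⟨hprob, hbd, hinv, -⟩ := hSYM ℓ μ
  have hℓ' : (2 : ℝ) ≤ ℓ := by exact_mod_cast hℓ
  have hl2 : (0 : ℝ) < (ℓ : ℝ) / 2 := by linarith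
  have hl1 : (0 : ℝ) < ((ℓ : ℝ) - 1) / 2 := by linarith
  split_ifs with hik
  · -- positive part
    set s := k - i with hs
    have h1 : ∀ B : Matrix (Fin 2) (Fin 2) ℝ, sj (2 * i) (2 * k + 1) B =
        B.det ^ (2 * i) * hh B.trace B.det (2 * s) := by
      intro B
      unfold sj
      rw [if_pos (by omega), show 2 * k + 1 - 2 * i - 1 = 2 * s by omega]
    simp only [h1]
    rw [avg_eq hAVG hbd hinv]
    have hnn : ∀ B : Matrix (Fin 2) (Fin 2) ℝ, 0 ≤ B.det ^ (2 * i) * rw2 B ^ s := by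
      intro B
      have : 0 ≤ rw2 B := by unfold rw2; positivity
      rw [pow_mul]
      positivity
    rw [integral_eq_lintegral_of_nonneg_ae (Filter.Eventually.of_forall hnn)
      (((det_cont.pow _).mul (rw2_cont.pow s)).aestronglyMeasurable)]
    have hgm : Measurable (Function.uncurry fun r δ : ℝ => ENNReal.ofReal (δ ^ (2 * i) * r ^ s)) := by
      unfold Function.uncurry
      fun_prop
    have hfm : Measurable fun B : Matrix (Fin 2) (Fin 2) ℝ =>
        ENNReal.ofReal (B.det ^ (2 * i) * rw2 B ^ s) :=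
      ENNReal.measurable_ofReal.comp ((det_cont.pow _).mul (rw2_cont.pow s)).measurable
    rw [hW2 ℓ hℓ μ _ hfm]
    have h2 := hW2B ℓ hℓ (fun r δ => ENNReal.ofReal (δ ^ (2 * i) * r ^ s)) hgm
    have h2' : ∫⁻ B in Bal, ENNReal.ofReal (B.det ^ (2 * i) * rw2 B ^ s) * ENNReal.ofReal (dn ℓ B) =
        ∫⁻ B in Bal, (fun r δ => ENNReal.ofReal (δ ^ (2 * i) * r ^ s)) (B 0 0 ^ 2 + B 0 1 ^ 2) B.det *
          ENNReal.ofReal (dn ℓ B) := rfl
    rw [h2', h2]
    have hBt := (hBET i ((ℓ : ℝ) / 2) hl2).2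
    have ht : ∫⁻ t in Set.Ioo (-1 : ℝ) 1, ENNReal.ofReal (t ^ (2 * i) *
        (1 - t ^ 2) ^ ((ℓ : ℝ) / 2 - 1)) = ENNReal.ofReal (bt (i + 1 / 2) ((ℓ : ℝ) / 2)) := by
      rw [← hBt.2, ofReal_integral_eq_lintegral_ofReal hBt.1]
      filter_upwards [ae_restrict_mem measurableSet_Ioo] with t ht
      have : 0 ≤ 1 - t ^ 2 := by nlinarith [ht.1, ht.2]
      rw [pow_mul]
      positivity
    have hin : ∫⁻ r in Set.Ioo (0 : ℝ) 1, ∫⁻ t in Set.Ioo (-1 : ℝ) 1,
        ENNReal.ofReal ((Real.sqrt r * t) ^ (2 * i) * r ^ s) *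
          ENNReal.ofReal ((1 - r) ^ ((ℓ : ℝ) / 2 - 1) * (1 - t ^ 2) ^ ((ℓ : ℝ) / 2 - 1)) =
        ENNReal.ofReal (bt (k + 1) ((ℓ : ℝ) / 2)) * ENNReal.ofReal (bt (i + 1 / 2) ((ℓ : ℝ) / 2)) := by
      have h3 : ∀ r ∈ Set.Ioo (0 : ℝ) 1, ∫⁻ t in Set.Ioo (-1 : ℝ) 1,
          ENNReal.ofReal ((Real.sqrt r * t) ^ (2 * i) * r ^ s) *
          ENNReal.ofReal ((1 - r) ^ ((ℓ : ℝ) / 2 - 1) * (1 - t ^ 2) ^ ((ℓ : ℝ) / 2 - 1)) =
          ENNReal.ofReal (r ^ k * (1 - r) ^ ((ℓ : ℝ) / 2 - 1)) *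
            ENNReal.ofReal (bt (i + 1 / 2) ((ℓ : ℝ) / 2)) := by
        intro r hr
        rw [← ht, ← lintegral_const_mul' _ _ ENNReal.ofReal_ne_top]
        refine setLIntegral_congr_fun measurableSet_Ioo fun t ht => ?_
        have hr0 : 0 < r := hr.1
        have hr1 : 0 ≤ 1 - r := by linarith [hr.2]
        have ht0 : 0 ≤ 1 - t ^ 2 := by nlinarith [ht.1, ht.2]
        have e1 : (Real.sqrt r * t) ^ (2 * i) * r ^ s = r ^ k * t ^ (2 * i) := by
          rw [mul_pow, pow_mul, Real.sq_sqrt hr0.le]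
          have : r ^ k = r ^ i * r ^ s := by rw [← pow_add]; congr 1; omega
          rw [this]; ring
        have e2 : 0 ≤ t ^ (2 * i) := by rw [pow_mul]; positivity
        rw [e1, ← ENNReal.ofReal_mul (by positivity), ← ENNReal.ofReal_mul (by positivity)]
        congr 1
        ring
      rw [setLIntegral_congr_fun measurableSet_Ioo h3, lintegral_mul_const' _ _ ENNReal.ofReal_ne_top,
        beta01 k hl2]
    rw [hin]
    have hb1 := bt_pos (by norm_num : (0 : ℝ) < 1 / 2) hl1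
    have hb2 := bt_pos (by norm_num : (0 : ℝ) < 1 / 2) hl2
    have hb3 := bt_pos (by positivity : (0 : ℝ) < (k : ℝ) + 1) hl2
    have hb4 := bt_pos (by positivity : (0 : ℝ) < (i : ℝ) + 1 / 2) hl2
    have hcW : 0 < cW ℓ := by
      unfold cW
      have : (0 : ℝ) < ℓ := by linarith
      positivity
    rw [← ENNReal.ofReal_mul hb3.le, ← ENNReal.ofReal_mul (by positivity),
      ← ENNReal.ofReal_mul hcW.le, ENNReal.toReal_ofReal (by positivity), bt_one hl2]
    unfold cW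
    have : (ℓ : ℝ) ≠ 0 := by positivity
    field_simp
  · -- vanishing part
    push Not at hik
    set s := i - k - 1 with hs
    have h1 : ∀ B : Matrix (Fin 2) (Fin 2) ℝ, sj (2 * i) (2 * k + 1) B =
        -(B.det ^ (2 * k + 1) * hh B.trace B.det (2 * s)) := by
      intro B
      unfold sj
      rw [if_neg (by omega), if_pos (by omega), show 2 * i - (2 * k + 1) - 1 = 2 * s by omega]
    simp only [h1]
    rw [integral_neg, avg_eq hAVG hbd hinv]
    set g : Matrix (Fin 2) (Fin 2) ℝ := !![1, 0; 0, -1] with hg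
    have hgg : gᵀ * g = 1 := by
      ext i j
      rw [Matrix.mul_apply, Fin.sum_univ_two]
      fin_cases i <;> fin_cases j <;> simp [hg]
    have hgd : ∀ B : Matrix (Fin 2) (Fin 2) ℝ, (g * B).det = -B.det := by
      intro B
      rw [Matrix.det_mul]
      have : g.det = -1 := by rw [Matrix.det_fin_two]; simp [hg]
      rw [this]; ring
    have hgr : ∀ B : Matrix (Fin 2) (Fin 2) ℝ, rw2 (g * B) = rw2 B := by
      intro B
      unfold rw2
      simp [hg, Matrix.mul_apply, Fin.sum_univ_two]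
    have hz : ∫ B, B.det ^ (2 * k + 1) * rw2 B ^ s ∂(om2 μ) =
        -∫ B, B.det ^ (2 * k + 1) * rw2 B ^ s ∂(om2 μ) := by
      conv_lhs => rw [← hinv g hgg]
      rw [integral_map, ← integral_neg]
      · congr 1
        funext B
        rw [hgd, hgr, Odd.neg_pow ⟨k, rfl⟩]
        ring
      · exact (Continuous.matrix_mul continuous_const continuous_id).measurable.aemeasurable
      · exact ((det_cont.pow _).mul (rw2_cont.pow s)).aestronglyMeasurable
    linarith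

end Pool.Agent.H33.TO.TOT
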