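import Pool.Agent.H33.TO.DB

/-!
# MP_b4e73a_pr, module W2A: law of the 2x2 truncation up to a constant
-/

set_option autoImplicit false

open MeasureTheory Matrix Polynomial
open scoped ENNReal

namespace Pool.Agent.H33.TO.W2A

open Pool.Agent.H84.TO Pool.Agent.H33.TO

theorem trans3 (F : ℝ × ℝ × ℝ → ENNReal) (p0 : ℝ × ℝ × ℝ) :
    ∫⁻ p : ℝ × ℝ × ℝ, F (p - p0) = ∫⁻ p, F p := by
  have : (volume : Measure (ℝ × ℝ)).IsAddHaarMeasure := by
    rw [Measure.volume_eq_prod]; infer_instance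
  have : (volume : Measure (ℝ × ℝ × ℝ)).IsAddHaarMeasure := by
    rw [Measure.volume_eq_prod]; infer_instance
  exact lintegral_sub_right_eq_self F p0

/-- positive definite 2x2 matrices -/
theorem pd2 (Q : Matrix (Fin 2) (Fin 2) ℝ) :
    Q.PosDef ↔ Q 0 1 = Q 1 0 ∧ 0 < Q 0 0 ∧ 0 < Q.det := by
  constructor
  · intro h
    refine ⟨?_, h.diag_pos, h.det_pos⟩
    have := h.isHermitian.apply 0 1
    simpa using this.symm
  · rintro ⟨h1, h2, h3⟩
    refine PosDef.of_dotProduct_mulVec_pos ?_ ?_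
    · ext i j
      fin_cases i <;> fin_cases j <;> simp [Matrix.conjTranspose_apply, h1]
    · intro x hx
      have hd : Q.det = Q 0 0 * Q 1 1 - Q 0 1 * Q 1 0 := Matrix.det_fin_two Q
      have e : star x ⬝ᵥ (Q *ᵥ x) = Q 0 0 * x 0 ^ 2 + 2 * Q 0 1 * x 0 * x 1 + Q 1 1 * x 1 ^ 2 := by
        simp only [dotProduct, mulVec, Fin.sum_univ_two, Pi.star_apply, star_trivial]
        rw [← h1]
        ring
      rw [e]
      have h4 : Q 0 0 * (Q 0 0 * x 0 ^ 2 + 2 * Q 0 1 * x 0 * x 1 + Q 1 1 * x 1 ^ 2) =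
          (Q 0 0 * x 0 + Q 0 1 * x 1) ^ 2 + Q.det * x 1 ^ 2 := by rw [hd, ← h1]; ring
      have h5 : 0 < (Q 0 0 * x 0 + Q 0 1 * x 1) ^ 2 + Q.det * x 1 ^ 2 := by
        by_cases hx1 : x 1 = 0
        · have hx0 : x 0 ≠ 0 := by
            intro h0
            apply hx
            ext i
            fin_cases i
            · exact h0
            · exact hx1
          rw [hx1]
          have : 0 < (Q 0 0 * x 0) ^ 2 := by positivity
          simpa using this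
        · have : 0 < Q.det * x 1 ^ 2 := by positivity
          positivity
      rw [← h4] at h5
      exact pos_of_mul_pos_right h5 h2.le

theorem el_cont {m n : Type} [Fintype m] [Fintype n] (i : m) (j : n) :
    Continuous fun B : Matrix m n ℝ => B i j := continuous_id.matrix_elem i j

theorem pd_meas : MeasurableSet {Q : Matrix (Fin 2) (Fin 2) ℝ | Q.PosDef} := by
  have : {Q : Matrix (Fin 2) (Fin 2) ℝ | Q.PosDef} =
      {Q | Q 0 1 = Q 1 0} ∩ ({Q | 0 < Q 0 0} ∩ {Q | 0 < Q.det}) := by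
    ext Q
    exact pd2 Q
  rw [this]
  exact (isClosed_eq (el_cont 0 1) (el_cont 1 0)).measurableSet.inter
    ((isOpen_lt continuous_const (el_cont 0 0)).measurableSet.inter
      (isOpen_lt continuous_const det_cont).measurableSet)

theorem minv : Measurable fun A : Matrix (Fin 2) (Fin 2) ℝ => A⁻¹ := by
  refine measurable_pi_iff.2 fun i => measurable_pi_iff.2 fun j => ?_
  have h1 : ∀ A : Matrix (Fin 2) (Fin 2) ℝ, A⁻¹ i j = (A.det)⁻¹ * A.adjugate i j := by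
    intro A
    rw [Matrix.inv_def, Matrix.smul_apply, smul_eq_mul, Ring.inverse_eq_inv]
  simp only [h1]
  refine det_cont.measurable.inv.mul ?_
  exact ((Continuous.matrix_adjugate continuous_id).matrix_elem i j).measurable

/-- symmetric matrices in coordinates -/
def q (p : ℝ × ℝ × ℝ) : Matrix (Fin 2) (Fin 2) ℝ := !![p.1, p.2.1; p.2.1, p.2.2]

theorem q_cont : Continuous q := by
  unfold q
  refine continuous_matrix fun i j => ?_
  fin_cases i <;> fin_cases j <;> simp <;> fun_prop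

theorem int3 {h : Matrix (Fin 2) (Fin 2) ℝ → ℝ≥0∞} (hh : Measurable h) :
    ∫⁻ x : ℝ, ∫⁻ y : ℝ, ∫⁻ z : ℝ, h !![x, y; y, z] = ∫⁻ p : ℝ × ℝ × ℝ, h (q p) := by
  have hm : Measurable fun p : ℝ × ℝ × ℝ => h (q p) := hh.comp q_cont.measurable
  rw [Measure.volume_eq_prod, lintegral_prod _ hm.aemeasurable]
  refine lintegral_congr fun x => ?_
  have hm2 : Measurable fun p : ℝ × ℝ => h (q (x, p)) := hm.comp measurable_prodMk_left
  rw [Measure.volume_eq_prod, lintegral_prod _ hm2.aemeasurable]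
  rfl

/-- the indicator of bounded trace -/
noncomputable def ps (P : Matrix (Fin 2) (Fin 2) ℝ) : ℝ≥0∞ :=
  Set.indicator {P : Matrix (Fin 2) (Fin 2) ℝ | P.trace ≤ 1} (fun _ => 1) P

theorem ps_meas : Measurable ps :=
  measurable_const.indicator (isClosed_le tr_cont continuous_const).measurableSet

theorem tr_sq {m : Type} [Fintype m] (Y : Matrix m (Fin 2) ℝ) :
    (Yᵀ * Y).trace = ∑ j, ∑ i, Y i j ^ 2 := by
  simp only [Matrix.trace, Matrix.diag, Matrix.mul_apply, Matrix.transpose_apply, sq]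

theorem tr_sq_cont {m : Type} [Fintype m] : Continuous fun Y : Matrix m (Fin 2) ℝ => (Yᵀ * Y).trace := by
  simp only [tr_sq]
  exact continuous_finsetSum _ fun j _ => continuous_finsetSum _ fun i _ => (el_cont i j).pow 2

theorem Cps (ℓ : ℕ) : ∫⁻ Y : Matrix (Fin 2 ⊕ Fin ℓ) (Fin 2) ℝ, ps (Yᵀ * Y) ≠ ⊤ ∧
    ∫⁻ Y : Matrix (Fin 2 ⊕ Fin ℓ) (Fin 2) ℝ, ps (Yᵀ * Y) ≠ 0 := by
  have h1 : ∫⁻ Y : Matrix (Fin 2 ⊕ Fin ℓ) (Fin 2) ℝ, ps (Yᵀ * Y) =
      volume {Y : Matrix (Fin 2 ⊕ Fin ℓ) (Fin 2) ℝ | (Yᵀ * Y).trace ≤ 1} := by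
    have hms : MeasurableSet {Y : Matrix (Fin 2 ⊕ Fin ℓ) (Fin 2) ℝ | (Yᵀ * Y).trace ≤ 1} :=
      (isClosed_le tr_sq_cont continuous_const).measurableSet
    rw [← lintegral_indicator_one hms]
    rfl
  rw [h1]
  constructor
  · have hb : {Y : Matrix (Fin 2 ⊕ Fin ℓ) (Fin 2) ℝ | (Yᵀ * Y).trace ≤ 1} ⊆
        Metric.closedBall 0 1 := by
      intro Y hY
      have hY' : (Yᵀ * Y).trace ≤ 1 := hY
      rw [tr_sq] at hY'
      rw [mem_closedBall_zero_iff]
      refine (pi_norm_le_iff_of_nonneg zero_le_one).2 fun i =>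
        (pi_norm_le_iff_of_nonneg zero_le_one).2 fun j => ?_
      have h2 : Y i j ^ 2 ≤ 1 := by
        refine le_trans ?_ hY'
        calc Y i j ^ 2 ≤ ∑ i, Y i j ^ 2 := Finset.single_le_sum (f := fun i => Y i j ^ 2)
              (fun _ _ => sq_nonneg _) (Finset.mem_univ i)
          _ ≤ ∑ j, ∑ i, Y i j ^ 2 := Finset.single_le_sum (f := fun j => ∑ i, Y i j ^ 2)
              (fun _ _ => Finset.sum_nonneg fun _ _ => sq_nonneg _) (Finset.mem_univ j)
      rw [Real.norm_eq_abs]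
      exact (sq_le_one_iff_abs_le_one _).1 h2
    exact ne_top_of_le_ne_top (isCompact_closedBall _ _).measure_lt_top.ne (measure_mono hb)
  · have ho : IsOpen {Y : Matrix (Fin 2 ⊕ Fin ℓ) (Fin 2) ℝ | (Yᵀ * Y).trace < 1} :=
      isOpen_lt tr_sq_cont continuous_const
    have hp : 0 < volume {Y : Matrix (Fin 2 ⊕ Fin ℓ) (Fin 2) ℝ | (Yᵀ * Y).trace < 1} :=
      ho.measure_pos _ ⟨0, by simp⟩
    have hs : {Y : Matrix (Fin 2 ⊕ Fin ℓ) (Fin 2) ℝ | (Yᵀ * Y).trace < 1} ⊆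
        {Y : Matrix (Fin 2 ⊕ Fin ℓ) (Fin 2) ℝ | (Yᵀ * Y).trace ≤ 1} := by
      intro Y hY
      have hY' : (Yᵀ * Y).trace < 1 := hY
      exact (hY'.le : (Yᵀ * Y).trace ≤ 1)
    exact (hp.trans_le (measure_mono hs)).ne'

theorem right_mul (hBLKV : T_BLKV) {R : Matrix (Fin 2) (Fin 2) ℝ} (hR : 0 < R.det)
    {F : Matrix (Fin 2) (Fin 2) ℝ → ℝ≥0∞} (hF : Measurable F) :
    ∫⁻ G, F G = ENNReal.ofReal (R.det ^ 2) * ∫⁻ B, F (B * R) := by
  have hdet : LinearMap.det (rgt R : Matrix (Fin 2) (Fin 2) ℝ →ₗ[ℝ] Matrix (Fin 2) (Fin 2) ℝ) =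
      R.det ^ 2 := by
    have := (hBLKV (Fin 2) (Fin 2) 1 R).2.1
    simpa using this
  have hdne : LinearMap.det (rgt R : Matrix (Fin 2) (Fin 2) ℝ →ₗ[ℝ] Matrix (Fin 2) (Fin 2) ℝ) ≠ 0 := by
    rw [hdet]; positivity
  have h1 := Measure.map_linearMap_addHaar_eq_smul_addHaar
    (volume : Measure (Matrix (Fin 2) (Fin 2) ℝ)) hdne
  have hm : Measurable (fun B : Matrix (Fin 2) (Fin 2) ℝ => B * R) :=
    (Continuous.matrix_mul continuous_id continuous_const).measurable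
  have h2 : ∫⁻ B, F (B * R) = ∫⁻ G, F G ∂(Measure.map (rgt R : Matrix (Fin 2) (Fin 2) ℝ →ₗ[ℝ]
      Matrix (Fin 2) (Fin 2) ℝ) volume) := by
    exact (lintegral_map hF hm).symm
  rw [h2, h1, lintegral_smul_measure, hdet, smul_eq_mul, ← mul_assoc,
    ← ENNReal.ofReal_mul (by positivity), abs_of_pos (by positivity),
    mul_inv_cancel₀ (by positivity), ENNReal.ofReal_one, one_mul]

/-- the joint integrand -/
noncomputable def Phi' (ℓ : ℕ) (f : Matrix (Fin 2) (Fin 2) ℝ → ℝ≥0∞)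
    (G P : Matrix (Fin 2) (Fin 2) ℝ) : ℝ≥0∞ :=
  Set.indicator {Q : Matrix (Fin 2) (Fin 2) ℝ | Q.PosDef}
    (fun Q => f (G * (rt P)⁻¹) * ps P * ENNReal.ofReal (Q.det ^ (((ℓ : ℝ) - 3) / 2))) (P - Gᵀ * G)

theorem sub_cont : Continuous fun z : Matrix (Fin 2) (Fin 2) ℝ × (ℝ × ℝ × ℝ) =>
    q z.2 - z.1ᵀ * z.1 :=
  (q_cont.comp continuous_snd).sub
    ((Continuous.matrix_transpose continuous_fst).matrix_mul continuous_fst)

theorem mm_meas : Measurable fun z : Matrix (Fin 2) (Fin 2) ℝ × Matrix (Fin 2) (Fin 2) ℝ =>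
    z.1 * z.2 :=
  (Continuous.matrix_mul continuous_fst continuous_snd).measurable

theorem Phi_meas (hSQ2 : T_SQ2) (ℓ : ℕ) {f : Matrix (Fin 2) (Fin 2) ℝ → ℝ≥0∞} (hf : Measurable f) :
    Measurable fun z : Matrix (Fin 2) (Fin 2) ℝ × (ℝ × ℝ × ℝ) => Phi' ℓ f z.1 (q z.2) := by
  have hrt := (hSQ2 (Fin 2)).1
  have hq : Measurable fun z : Matrix (Fin 2) (Fin 2) ℝ × (ℝ × ℝ × ℝ) => q z.2 :=
    (q_cont.comp continuous_snd).measurable
  have h1 : Measurable fun z : Matrix (Fin 2) (Fin 2) ℝ × (ℝ × ℝ × ℝ) =>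
      f (z.1 * (rt (q z.2))⁻¹) * ps (q z.2) *
        ENNReal.ofReal ((q z.2 - z.1ᵀ * z.1).det ^ (((ℓ : ℝ) - 3) / 2)) := by
    have h0 : Measurable fun z : Matrix (Fin 2) (Fin 2) ℝ × (ℝ × ℝ × ℝ) => (rt (q z.2))⁻¹ :=
      minv.comp (hrt.comp hq)
    have h00 : Measurable fun z : Matrix (Fin 2) (Fin 2) ℝ × (ℝ × ℝ × ℝ) =>
        z.1 * (rt (q z.2))⁻¹ := mm_meas.comp (measurable_fst.prodMk h0)
    have ha : Measurable fun z : Matrix (Fin 2) (Fin 2) ℝ × (ℝ × ℝ × ℝ) =>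
        f (z.1 * (rt (q z.2))⁻¹) := hf.comp h00
    have hb : Measurable fun z : Matrix (Fin 2) (Fin 2) ℝ × (ℝ × ℝ × ℝ) => ps (q z.2) :=
      ps_meas.comp hq
    have hc : Measurable fun z : Matrix (Fin 2) (Fin 2) ℝ × (ℝ × ℝ × ℝ) =>
        ENNReal.ofReal ((q z.2 - z.1ᵀ * z.1).det ^ (((ℓ : ℝ) - 3) / 2)) :=
      ENNReal.measurable_ofReal.comp ((det_cont.comp sub_cont).measurable.pow_const _)
    exact (ha.mul hb).mul hc
  have h2 : MeasurableSet {z : Matrix (Fin 2) (Fin 2) ℝ × (ℝ × ℝ × ℝ) |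
      (q z.2 - z.1ᵀ * z.1).PosDef} := sub_cont.measurable pd_meas
  exact h1.indicator h2

/-- a real matrix has the same transpose and conjugate transpose -/
theorem ct (A : Matrix (Fin 2) (Fin 2) ℝ) : Aᴴ = Aᵀ := by
  ext i j
  simp [Matrix.conjTranspose_apply]

theorem comp_r {α β γ : Type} [MeasurableSpace α] [MeasurableSpace β] [MeasurableSpace γ]
    {F : α → β → γ} (hF : Measurable fun z : α × β => F z.1 z.2) (b : β) :
    Measurable fun a => F a b := hF.comp measurable_prodMk_right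

/-- integration over `G` for fixed `P` -/
theorem int_G (hBLKV : T_BLKV) (hSQ1 : T_SQ1) (hSQ2 : T_SQ2) (ℓ : ℕ)
    {f : Matrix (Fin 2) (Fin 2) ℝ → ℝ≥0∞} (hf : Measurable f) (p : ℝ × ℝ × ℝ) :
    ∫⁻ G, Phi' ℓ f G (q p) = Set.indicator {p : ℝ × ℝ × ℝ | (q p).PosDef} (fun p =>
      ENNReal.ofReal (q p).det * ps (q p) *
        ENNReal.ofReal ((q p).det ^ (((ℓ : ℝ) - 3) / 2))) p *
      ∫⁻ B in Bal, f B * ENNReal.ofReal (dn ℓ B) := by
  have hm : Measurable fun G : Matrix (Fin 2) (Fin 2) ℝ => Phi' ℓ f G (q p) :=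
    comp_r (F := fun (G : Matrix (Fin 2) (Fin 2) ℝ) (p : ℝ × ℝ × ℝ) => Phi' ℓ f G (q p))
      (Phi_meas hSQ2 ℓ hf) p
  by_cases hp : (q p).PosDef
  · have hp' : p ∈ {p : ℝ × ℝ × ℝ | (q p).PosDef} := hp
    rw [Set.indicator_of_mem hp']
    obtain ⟨hR, hRR, -⟩ := hSQ1 (Fin 2) (q p) hp
    set R := rt (q p) with hRdef
    have hRd : 0 < R.det := hR.det_pos
    have hRu : IsUnit R := hR.isUnit
    have hRt : Rᵀ = R := by rw [← ct]; exact hR.isHermitian
    have hdet : (q p).det = R.det ^ 2 := by rw [← hRR, Matrix.det_mul]; ring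
    rw [right_mul hBLKV hRd hm]
    have hBm : MeasurableSet Bal := by
      have hc : Continuous fun B : Matrix (Fin 2) (Fin 2) ℝ => 1 - Bᵀ * B :=
        continuous_const.sub ((Continuous.matrix_transpose continuous_id).matrix_mul continuous_id)
      exact hc.measurable pd_meas
    have h1 : ∀ B : Matrix (Fin 2) (Fin 2) ℝ, Phi' ℓ f (B * R) (q p) =
        (ps (q p) * ENNReal.ofReal ((q p).det ^ (((ℓ : ℝ) - 3) / 2))) *
          Set.indicator Bal (fun B => f B * ENNReal.ofReal (dn ℓ B)) B := by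
      intro B
      have e1 : q p - (B * R)ᵀ * (B * R) = Rᴴ * (1 - Bᵀ * B) * R := by
        rw [ct, Matrix.transpose_mul, hRt, Matrix.mul_sub, Matrix.sub_mul, Matrix.mul_one, hRR]
        simp only [Matrix.mul_assoc]
      have e2 : (Rᴴ * (1 - Bᵀ * B) * R).PosDef ↔ (1 - Bᵀ * B).PosDef :=
        hRu.posDef_star_left_conjugate_iff
      unfold Phi'
      rw [e1, ← hRdef]
      by_cases hB : B ∈ Bal
      · have hB' : (1 - Bᵀ * B).PosDef := hB
        have hB2 : Rᴴ * (1 - Bᵀ * B) * R ∈ {Q : Matrix (Fin 2) (Fin 2) ℝ | Q.PosDef} := e2.2 hB'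
        rw [Set.indicator_of_mem hB2, Set.indicator_of_mem hB]
        have e3 : B * R * R⁻¹ = B := by
          rw [Matrix.mul_assoc, Matrix.mul_nonsing_inv _ (isUnit_iff_ne_zero.2 hRd.ne'),
            Matrix.mul_one]
        have e4 : (Rᴴ * (1 - Bᵀ * B) * R).det = (q p).det * (1 - Bᵀ * B).det := by
          rw [Matrix.det_mul, Matrix.det_mul, ct, Matrix.det_transpose, hdet]; ring
        have e5 : 0 < (1 - Bᵀ * B).det := hB'.det_pos
        rw [e3, e4, Real.mul_rpow hp.det_pos.le e5.le, ENNReal.ofReal_mul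
          (Real.rpow_nonneg hp.det_pos.le _)]
        unfold dn
        ring
      · have hB2 : Rᴴ * (1 - Bᵀ * B) * R ∉ {Q : Matrix (Fin 2) (Fin 2) ℝ | Q.PosDef} := fun h =>
          hB (e2.1 h)
        rw [Set.indicator_of_notMem hB2, Set.indicator_of_notMem hB, mul_zero]
    simp only [h1]
    have hfin : ps (q p) * ENNReal.ofReal ((q p).det ^ (((ℓ : ℝ) - 3) / 2)) ≠ ⊤ := by
      refine ENNReal.mul_ne_top ?_ ENNReal.ofReal_ne_top
      unfold ps
      simp only [Set.indicator]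
      split_ifs <;> simp
    rw [lintegral_const_mul' _ _ hfin, lintegral_indicator hBm, hdet]
    ring
  · have hp' : p ∉ {p : ℝ × ℝ × ℝ | (q p).PosDef} := hp
    rw [Set.indicator_of_notMem hp', zero_mul]
    have h1 : ∀ G : Matrix (Fin 2) (Fin 2) ℝ, Phi' ℓ f G (q p) = 0 := by
      intro G
      unfold Phi'
      refine Set.indicator_of_notMem ?_ _
      intro h
      apply hp
      have h2 : (q p - Gᵀ * G).PosDef := h
      have h3 : (Gᵀ * G).PosSemidef := by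
        rw [← ct]; exact posSemidef_conjTranspose_mul_self G
      have := h2.add_posSemidef h3
      rwa [sub_add_cancel] at this
    simp only [h1, lintegral_zero]

/-- module W2A -/
theorem w2a (hHAR : T_HAR) (hPOL : T_POL) (hBLM : T_BLM) (hSQ1 : T_SQ1) (hSQ2 : T_SQ2)
    (hBLKV : T_BLKV) : T_W2A := by
  intro ℓ hℓ μ _ _
  obtain ⟨c, hc, hpol⟩ := hPOL ℓ hℓ
  obtain ⟨hC1, hC0⟩ := Cps ℓ
  set C := ∫⁻ Y : Matrix (Fin 2 ⊕ Fin ℓ) (Fin 2) ℝ, ps (Yᵀ * Y) with hC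
  set k : ℝ × ℝ × ℝ → ℝ≥0∞ := Set.indicator {p : ℝ × ℝ × ℝ | (q p).PosDef} (fun p =>
      ENNReal.ofReal (q p).det * ps (q p) *
        ENNReal.ofReal ((q p).det ^ (((ℓ : ℝ) - 3) / 2))) with hk
  have hdq : Measurable fun p : ℝ × ℝ × ℝ => (q p).det := (det_cont.comp q_cont).measurable
  have hkm : Measurable k := by
    refine Measurable.indicator ?_ (q_cont.measurable pd_meas)
    exact ((ENNReal.measurable_ofReal.comp hdq).mul (ps_meas.comp q_cont.measurable)).mul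
      (ENNReal.measurable_ofReal.comp (hdq.pow_const _))
  refine ⟨ENNReal.ofReal c * (∫⁻ p, k p) * C⁻¹, ?_⟩
  intro f hf
  have hrt := (hSQ2 (Fin 2)).1
  have hhar := hHAR (Fin 2) (Fin ℓ) μ (fun V => f (top V)) ps
    (hf.comp (measurable_pi_iff.2 fun i => measurable_pi_iff.2 fun j =>
      (el_cont (Sum.inl i) j).measurable)) ps_meas
  -- the right side of the Haar formula
  have hblk : ∀ O : Matrix.orthogonalGroup (Fin 2 ⊕ Fin ℓ) ℝ,
      top ((O : Matrix (Fin 2 ⊕ Fin ℓ) (Fin 2 ⊕ Fin ℓ) ℝ) *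
        fromRows (1 : Matrix (Fin 2) (Fin 2) ℝ) (0 : Matrix (Fin ℓ) (Fin 2) ℝ)) = blk O := by
    intro O
    ext i j
    simp [top, blk, Matrix.toRows₁, Matrix.mul_apply, Matrix.toBlocks₁₁, Matrix.one_apply]
  simp only [hblk] at hhar
  rw [← hC] at hhar
  -- the left side
  have hYm : Measurable fun Y : Matrix (Fin 2 ⊕ Fin ℓ) (Fin 2) ℝ =>
      f (top (Y * (rt (Yᵀ * Y))⁻¹)) * ps (Yᵀ * Y) := by
    have hYY : Continuous fun Y : Matrix (Fin 2 ⊕ Fin ℓ) (Fin 2) ℝ => Yᵀ * Y :=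
      (Continuous.matrix_transpose continuous_id).matrix_mul continuous_id
    have hmul : Measurable fun z : Matrix (Fin 2 ⊕ Fin ℓ) (Fin 2) ℝ × Matrix (Fin 2) (Fin 2) ℝ =>
        top (z.1 * z.2) := by
      refine measurable_pi_iff.2 fun i => measurable_pi_iff.2 fun j => ?_
      exact ((Continuous.matrix_mul continuous_fst continuous_snd).matrix_elem
        (Sum.inl i) j).measurable
    exact (hf.comp (hmul.comp (measurable_id.prodMk (minv.comp (hrt.comp hYY.measurable))))).mul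
      (ps_meas.comp hYY.measurable)
  have hsplit := (hBLM (Fin 2) (Fin 2) (Fin ℓ)).2 _ hYm
  have hrows : ∀ (A : Matrix (Fin 2) (Fin 2) ℝ) (W : Matrix (Fin ℓ) (Fin 2) ℝ),
      f (top (fromRows A W * (rt ((fromRows A W)ᵀ * fromRows A W))⁻¹)) *
        ps ((fromRows A W)ᵀ * fromRows A W) =
      f (A * (rt (Aᵀ * A + Wᵀ * W))⁻¹) * ps (Aᵀ * A + Wᵀ * W) := by
    intro A W
    have e1 : (fromRows A W)ᵀ * fromRows A W = Aᵀ * A + Wᵀ * W := by
      rw [Matrix.transpose_fromRows, Matrix.fromCols_mul_fromRows]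
    rw [e1, Matrix.fromRows_mul]
    simp [top]
  simp only [hrows] at hsplit
  rw [hsplit] at hhar
  -- polar decomposition
  have hW : ∀ G : Matrix (Fin 2) (Fin 2) ℝ, ∫⁻ W : Matrix (Fin ℓ) (Fin 2) ℝ,
      f (G * (rt (Gᵀ * G + Wᵀ * W))⁻¹) * ps (Gᵀ * G + Wᵀ * W) =
      ENNReal.ofReal c * ∫⁻ p : ℝ × ℝ × ℝ, Phi' ℓ f G (q p) := by
    intro G
    have hadd : Measurable fun Q : Matrix (Fin 2) (Fin 2) ℝ => Gᵀ * G + Q :=
      (continuous_const.add continuous_id).measurable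
    have hgm : Measurable fun Q : Matrix (Fin 2) (Fin 2) ℝ =>
        f (G * (rt (Gᵀ * G + Q))⁻¹) * ps (Gᵀ * G + Q) := by
      have h0 : Measurable fun Q : Matrix (Fin 2) (Fin 2) ℝ => (rt (Gᵀ * G + Q))⁻¹ :=
        minv.comp (hrt.comp hadd)
      have h00 : Measurable fun Q : Matrix (Fin 2) (Fin 2) ℝ => G * (rt (Gᵀ * G + Q))⁻¹ :=
        mm_meas.comp (measurable_const.prodMk h0)
      have ha : Measurable fun Q : Matrix (Fin 2) (Fin 2) ℝ => f (G * (rt (Gᵀ * G + Q))⁻¹) :=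
        hf.comp h00
      have hb : Measurable fun Q : Matrix (Fin 2) (Fin 2) ℝ => ps (Gᵀ * G + Q) :=
        ps_meas.comp hadd
      exact ha.mul hb
    have h1 := hpol _ hgm
    rw [h1]
    congr 1
    have hhm : Measurable (Set.indicator {Q : Matrix (Fin 2) (Fin 2) ℝ | Q.PosDef}
        (fun Q => f (G * (rt (Gᵀ * G + Q))⁻¹) * ps (Gᵀ * G + Q) *
          ENNReal.ofReal (Q.det ^ (((ℓ : ℝ) - 3) / 2)))) :=
      (hgm.mul (ENNReal.measurable_ofReal.comp (det_cont.measurable.pow_const _))).indicator pd_meas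
    rw [int3 hhm]
    rw [← trans3 _ ((Gᵀ * G) 0 0, (Gᵀ * G) 0 1, (Gᵀ * G) 1 1)]
    refine lintegral_congr fun p => ?_
    have hsym : (Gᵀ * G) 1 0 = (Gᵀ * G) 0 1 := by
      simp only [Matrix.mul_apply, Matrix.transpose_apply, Fin.sum_univ_two]
      ring
    have e2 : q (p - ((Gᵀ * G) 0 0, (Gᵀ * G) 0 1, (Gᵀ * G) 1 1)) = q p - Gᵀ * G := by
      ext i j
      fin_cases i <;> fin_cases j <;> simp [q, hsym]
    rw [e2]
    unfold Phi'
    have e3 : Gᵀ * G + (q p - Gᵀ * G) = q p := by abel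
    by_cases h : (q p - Gᵀ * G) ∈ {Q : Matrix (Fin 2) (Fin 2) ℝ | Q.PosDef}
    · rw [Set.indicator_of_mem h, Set.indicator_of_mem h, e3]
    · rw [Set.indicator_of_notMem h, Set.indicator_of_notMem h]
  simp only [hW] at hhar
  have hPm := Phi_meas hSQ2 ℓ hf
  rw [lintegral_const_mul' _ _ ENNReal.ofReal_ne_top, lintegral_lintegral_swap hPm.aemeasurable]
    at hhar
  simp only [int_G hBLKV hSQ1 hSQ2 ℓ hf] at hhar
  rw [← hk, lintegral_mul_const _ hkm] at hhar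
  calc ∫⁻ O, f (blk O) ∂μ = (∫⁻ O, f (blk O) ∂μ) * C * C⁻¹ := by
        rw [mul_assoc, ENNReal.mul_inv_cancel hC0 hC1, mul_one]
    _ = _ := by rw [← hhar]; ring

end Pool.Agent.H33.TO.W2A
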